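import Mathlib
import Pool.Agent.Results.MP_257582_lc.ConeDegrees
import Pool.Agent.Results.MP_257582_lc.RegularDegrees
import Pool.Agent.R483.TP.Pack
import Pool.Agent.R483.TP.Strength
import Pool.Agent.R483.TP.Cover

set_option autoImplicit false

/-!
# Evasiveness of packing spanning trees, of strength, and of covering by forests (MP_257582_lc)

For every number `N` of vertices the following properties are evasive:

* `G` contains `k` edge-disjoint spanning trees (`2 ≤ k`, `2 k ≤ N`; the property is empty if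
  `N < 2 k`, and `k = 1` is connectedness), also together with `|E(G)| ≥ m`;
* the strength of `G` is at least `c`, for real `c` with `1 < c ≤ N / 2`;
* every monotone property between the conjunction of these two (`k = ⌊c⌋`) and the property of
  having no isolated vertex and at least `c (N - 1)` edges;
* `G` is not a union of `k` forests (`1 ≤ k`, `2 k < N`; every graph is such a union if `N ≤ 2 k`);
* every monotone property between the property that all degrees are at least `2 k` and that of
  not being a union of `k` forests.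

Proof.  The first part uses `ConeDegrees`: it is enough that for regular `K` on `n` vertices
membership of the cone over `K` depends only on the degree `d` of `K`. The cone has `n (1 + d / 2)`
edges, its strength is `1 + d / 2`, and for `d ≥ 2 (k - 1)` it contains `k` edge-disjoint spanning
trees: by Hall's theorem every vertex can choose `k - 1` of its edges in `K` such that no edge is
chosen twice; direct the chosen edges away from the vertex that chose them and all edges at the apex
towards the apex; at least `k` arcs leave every nonempty set of vertices without the apex, so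
Edmonds' theorem on disjoint branchings (proved in `Arb`) applies. The second part uses
`RegularDegrees`: a `d`-regular graph with `d ≤ 2 k - 1` is a union of `k` forests. By Hall's
theorem every edge can be assigned to one of its ends such that each vertex gets at most `k` edges;
give each vertex `k` outgoing arcs, one for each assigned edge, the others to a new root. At least
`k` arcs leave every nonempty set without the root, and the `k` disjoint branchings use all arcs.
-/

namespace Pool.Agent.Results.MP_257582_lc.PackingCovering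

open Pool.Agent.Results.MP_257582_lc.ConeDegrees (Cone RegularOfDegree)

/-- Every decision strategy `s` (the next pair to be queried depends only on the answers to the
queries made so far) needs all `N.choose 2` queries: there are two graphs that agree on the first
`N.choose 2 - 1` queried pairs, one with and one without `P`. -/
def Evasive {N : ℕ} (P : SimpleGraph (Fin N) → Prop) : Prop :=
  ∀ s : Finset (Sym2 (Fin N)) → SimpleGraph (Fin N) → Sym2 (Fin N),
    (∀ (Q : Finset (Sym2 (Fin N))) (G H : SimpleGraph (Fin N)),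
        (∀ e ∈ Q, (e ∈ G.edgeSet ↔ e ∈ H.edgeSet)) → s Q G = s Q H) →
    ∃ G H : SimpleGraph (Fin N),
      (∀ e ∈ (fun Q : Finset (Sym2 (Fin N)) => insert (s Q G) Q)^[N.choose 2 - 1]
            (∅ : Finset (Sym2 (Fin N))),
          (e ∈ G.edgeSet ↔ e ∈ H.edgeSet)) ∧ P G ∧ ¬ P H

/-- `P` is preserved under adding edges and under isomorphism. -/
def MonotoneInvariant {N : ℕ} (P : SimpleGraph (Fin N) → Prop) : Prop :=
  (∀ G H : SimpleGraph (Fin N), G ≤ H → P G → P H) ∧
    ∀ (σ : Fin N ≃ Fin N) (G : SimpleGraph (Fin N)), P G → P (G.map σ.toEmbedding)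

/-- `G` contains `k` pairwise edge-disjoint spanning trees. -/
def TreePacking {N : ℕ} (k : ℕ) (G : SimpleGraph (Fin N)) : Prop :=
  ∃ T : Fin k → SimpleGraph (Fin N), (∀ i, (T i).IsTree) ∧ (∀ i, T i ≤ G) ∧
    ∀ i j, i ≠ j → ∀ u v, (T i).Adj u v → ¬ (T j).Adj u v

/-- The strength of `G` is at least `c`: for every partition of the vertices (into the fibres of
`f`), if `p` is the number of the parts, then at least `c (p - 1)` edges join different parts. -/
def StrengthAtLeast {N : ℕ} (c : ℝ) (G : SimpleGraph (Fin N)) : Prop :=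
  ∀ f : Fin N → Fin N, c * (((Set.range f).ncard : ℝ) - 1) ≤
    ({e ∈ G.edgeSet | ∃ u v, e = s(u, v) ∧ f u ≠ f v}.ncard : ℝ)

/-- `G` is the union of `k` forests. -/
def ForestUnion {N : ℕ} (k : ℕ) (G : SimpleGraph (Fin N)) : Prop :=
  ∃ T : Fin k → SimpleGraph (Fin N), (∀ i, (T i).IsAcyclic) ∧
    ∀ u v, G.Adj u v ↔ ∃ i, (T i).Adj u v

lemma cross_eq {N : ℕ} (G : SimpleGraph (Fin N)) (f : Fin N → Fin N) :
    {e ∈ G.edgeSet | ∃ u v, e = s(u, v) ∧ f u ≠ f v} =
      {e ∈ G.edgeSet | ¬ (e.map f).IsDiag} := by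
  ext e
  refine and_congr_right fun _ => ?_
  induction e using Sym2.ind with
  | _ a b =>
    rw [Sym2.map_mk, Sym2.mk_isDiag_iff]
    constructor
    · rintro ⟨u, v, h, huv⟩ hab
      rcases Sym2.eq_iff.1 h with ⟨rfl, rfl⟩ | ⟨rfl, rfl⟩
      · exact huv hab
      · exact huv hab.symm
    · intro h
      exact ⟨a, b, rfl, h⟩

lemma degree_eq {n d : ℕ} {K : SimpleGraph (Fin n)} [DecidableRel K.Adj]
    (hK : RegularOfDegree K d) (v : Fin n) : K.degree v = d := by
  rw [← SimpleGraph.card_neighborSet_eq_degree, ← Nat.card_eq_fintype_card, Nat.card_coe_set_eq]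
  exact hK v

lemma cone_last {n : ℕ} (K : SimpleGraph (Fin n)) (v : Fin n) :
    (Cone K).Adj v.castSucc (Fin.last n) :=
  ⟨(Fin.castSucc_lt_last v).ne, fun _ y _ hy => absurd hy.symm (Fin.castSucc_lt_last y).ne⟩

lemma cone_of {n : ℕ} (K : SimpleGraph (Fin n)) (v w : Fin n) (h : K.Adj v w) :
    (Cone K).Adj v.castSucc w.castSucc :=
  ⟨fun h' => h.ne (Fin.castSucc_injective n h'), fun x y hx hy => by
    rw [← Fin.castSucc_injective n hx, ← Fin.castSucc_injective n hy]
    exact h⟩

/-- the cone over a `d`-regular graph on `n` vertices has `n (d + 2) / 2` edges -/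
lemma cone_edges {n d : ℕ} {K : SimpleGraph (Fin n)} (hK : RegularOfDegree K d) :
    2 * (Cone K).edgeSet.ncard = n * (d + 2) := by
  classical
  have h1 := (Cone K).sum_degrees_eq_twice_card_edges
  rw [Fin.sum_univ_castSucc] at h1
  have h2 : ∀ v : Fin n, (Cone K).degree v.castSucc = d + 1 := by
    intro v
    rw [← SimpleGraph.card_neighborSet_eq_degree, ← Nat.card_eq_fintype_card, Nat.card_coe_set_eq]
    exact ConeDegrees.cone_deg K hK v
  have h3 : (Cone K).degree (Fin.last n) = n := by
    rw [← SimpleGraph.card_neighborSet_eq_degree, ← Nat.card_eq_fintype_card, Nat.card_coe_set_eq]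
    have : (Cone K).neighborSet (Fin.last n) = Set.range (Fin.castSucc : Fin n → Fin (n + 1)) := by
      ext w
      rw [SimpleGraph.mem_neighborSet, Set.mem_range]
      constructor
      · intro h
        rcases Fin.eq_castSucc_or_eq_last w with ⟨y, rfl⟩ | h'
        · exact ⟨y, rfl⟩
        · rw [h'] at h
          exact absurd rfl h.ne
      · rintro ⟨y, rfl⟩
        exact (cone_last K y).symm
    rw [this, ← Set.image_univ, Set.ncard_image_of_injective _ (Fin.castSucc_injective n),
      Set.ncard_univ, Nat.card_eq_fintype_card, Fintype.card_fin]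
  rw [h3, Finset.sum_congr rfl (fun v _ => h2 v), Finset.sum_const, Finset.card_univ,
    Fintype.card_fin, smul_eq_mul] at h1
  rw [Set.ncard_eq_toFinset_card']
  have h4 : (Cone K).edgeFinset = (Cone K).edgeSet.toFinset := rfl
  rw [h4] at h1
  rw [← h1]
  ring

/-- the strength of the cone over a `d`-regular graph is at least `1 + d / 2` -/
lemma cone_strength {n d : ℕ} {K : SimpleGraph (Fin n)} (hK : RegularOfDegree K d) {c : ℝ}
    (hc : 2 * c ≤ d + 2) : StrengthAtLeast c (Cone K) := by
  classical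
  intro f
  have h1 := Pool.Agent.R483.TP.strength_aux K (degree_eq hK) (Cone K) (cone_last K) (cone_of K) f
  have h2 : (Set.range f).ncard = (Finset.univ.image f).card := by
    rw [Set.ncard_eq_toFinset_card', Set.toFinset_range]
  have h3 : {e ∈ (Cone K).edgeSet | ∃ u v, e = s(u, v) ∧ f u ≠ f v}.ncard =
      (Finset.univ.filter fun e : Sym2 (Fin (n + 1)) =>
        e ∈ (Cone K).edgeSet ∧ ¬ (e.map f).IsDiag).card := by
    rw [cross_eq, Set.ncard_eq_toFinset_card']
    congr 1
    ext e
    rw [Set.mem_toFinset, Finset.mem_filter]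
    exact ⟨fun h => ⟨Finset.mem_univ _, h⟩, fun h => h.2⟩
  rw [h2, h3]
  have h4 : 1 ≤ (Finset.univ.image f).card :=
    Finset.card_pos.2 ⟨f (Fin.last n), Finset.mem_image_of_mem _ (Finset.mem_univ _)⟩
  have h5 : ((((Finset.univ.image f).card - 1) * (d + 2) : ℕ) : ℝ) ≤
      ((2 * (Finset.univ.filter fun e : Sym2 (Fin (n + 1)) =>
        e ∈ (Cone K).edgeSet ∧ ¬ (e.map f).IsDiag).card : ℕ) : ℝ) := by exact_mod_cast h1
  push_cast [Nat.cast_sub h4] at h5
  have h6 : (0 : ℝ) ≤ ((Finset.univ.image f).card : ℝ) - 1 := by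
    have : (1 : ℝ) ≤ ((Finset.univ.image f).card : ℝ) := by exact_mod_cast h4
    linarith
  nlinarith

/-- the cone over a `d`-regular graph with `d ≥ 2 (k - 1)` contains `k` edge-disjoint spanning
trees -/
lemma cone_packing {n d k : ℕ} {K : SimpleGraph (Fin n)} (hK : RegularOfDegree K d)
    (hk : 2 * k ≤ d + 2) : TreePacking k (Cone K) := by
  classical
  rcases Nat.eq_zero_or_pos k with rfl | hk0
  · exact ⟨fun i => i.elim0, fun i => i.elim0, fun i => i.elim0, fun i => i.elim0⟩
  · obtain ⟨j, rfl⟩ : ∃ j, k = j + 1 := ⟨k - 1, by omega⟩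
    exact Pool.Agent.R483.TP.pack_aux K (degree_eq hK) (by omega) (Cone K) (cone_last K) (cone_of K)

/-- **Packing.** -/
theorem packing (N : ℕ) (c : ℝ) (hc : 1 < c) (hcN : 2 * c ≤ N) (P : SimpleGraph (Fin N) → Prop)
    (hP : MonotoneInvariant P)
    (hlow : ∀ G, TreePacking ⌊c⌋₊ G → StrengthAtLeast c G → P G)
    (hup : ∀ G, P G → (∀ v, ∃ w, G.Adj v w) ∧ c * ((N : ℝ) - 1) ≤ (G.edgeSet.ncard : ℝ)) :
    Evasive P := by
  have hN : 1 < N := by
    have : (1 : ℝ) < N := by linarith
    exact_mod_cast this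
  obtain ⟨n, rfl⟩ : ∃ n, N = n + 1 := ⟨N - 1, by omega⟩
  have hn : (0 : ℝ) < n := by
    have : 0 < n := by omega
    exact_mod_cast this
  have hthr : ∀ (d : ℕ) (K : SimpleGraph (Fin n)), RegularOfDegree K d →
      (P (Cone K) ↔ 2 * c ≤ d + 2) := by
    intro d K hK
    have h1 : (2 : ℝ) * ((Cone K).edgeSet.ncard : ℝ) = n * (d + 2) := by
      exact_mod_cast cone_edges hK
    constructor
    · intro h
      have h2 := (hup _ h).2
      push_cast at h2
      have h3 : c * n ≤ ((Cone K).edgeSet.ncard : ℝ) := by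
        have : c * ((n : ℝ) + 1 - 1) = c * n := by ring
        linarith
      by_contra hcon
      rw [not_le] at hcon
      have : (n : ℝ) * (d + 2) < n * (2 * c) := mul_lt_mul_of_pos_left hcon hn
      nlinarith
    · intro h
      refine hlow _ (cone_packing hK ?_) (cone_strength hK h)
      have h2 : (⌊c⌋₊ : ℝ) ≤ c := Nat.floor_le (by linarith)
      have h3 : (2 : ℝ) * (⌊c⌋₊ : ℝ) ≤ d + 2 := by linarith
      exact_mod_cast h3
  refine ConeDegrees.cone_evasive n P hP.1 hP.2 ?_ ⟨Cone ⊤, ?_⟩ ?_ ?_
  · rintro G ⟨v, hv⟩ h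
    obtain ⟨w, hw⟩ := (hup _ h).1 v
    exact hv w hw
  · rw [hthr _ _ (ConeDegrees.regular_top n)]
    push_cast at hcN
    have : ((n - 1 : ℕ) : ℝ) = n - 1 := by
      rw [Nat.cast_sub (by omega)]
      norm_num
    rw [this]
    linarith
  · rw [hthr _ _ (ConeDegrees.regular_bot n), not_le]
    push_cast
    linarith
  · intro d K L _ _ hK hL
    rw [hthr d K hK, hthr d L hL]

lemma adj_map {N : ℕ} (σ : Fin N ≃ Fin N) (G : SimpleGraph (Fin N)) (a b : Fin N) :
    (G.map σ.toEmbedding).Adj (σ a) (σ b) ↔ G.Adj a b :=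
  SimpleGraph.map_adj_apply (f := σ.toEmbedding)

lemma packing_inv {N : ℕ} (k : ℕ) : MonotoneInvariant (TreePacking (N := N) k) := by
  constructor
  · rintro G H hGH ⟨T, h1, h2, h3⟩
    exact ⟨T, h1, fun i => (h2 i).trans hGH, h3⟩
  · rintro σ G ⟨T, h1, h2, h3⟩
    refine ⟨fun i => (T i).map σ.toEmbedding, fun i => ?_, fun i => ?_, fun i j hij u v => ?_⟩
    · exact (SimpleGraph.Iso.map σ (T i)).isTree_iff.1 (h1 i)
    · intro u v huv
      obtain ⟨a, rfl⟩ := σ.surjective u
      obtain ⟨b, rfl⟩ := σ.surjective v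
      rw [adj_map] at huv ⊢
      exact h2 i huv
    · obtain ⟨a, rfl⟩ := σ.surjective u
      obtain ⟨b, rfl⟩ := σ.surjective v
      rw [adj_map, adj_map]
      exact h3 i j hij a b

lemma packing_anti {N k l : ℕ} (h : k ≤ l) (G : SimpleGraph (Fin N)) (hG : TreePacking l G) :
    TreePacking k G := by
  obtain ⟨T, h1, h2, h3⟩ := hG
  exact ⟨fun i => T (Fin.castLE h i), fun i => h1 _, fun i => h2 _,
    fun i j hij => h3 _ _ fun h' => hij (Fin.castLE_injective h h')⟩

lemma packing_edges {N k : ℕ} (G : SimpleGraph (Fin N)) (hG : TreePacking k G) :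
    (k : ℝ) * ((N : ℝ) - 1) ≤ (G.edgeSet.ncard : ℝ) := by
  classical
  obtain ⟨T, h1, h2, h3⟩ := hG
  have h4 : ∑ i, (T i).edgeFinset.card ≤ G.edgeFinset.card := by
    rw [← Finset.card_biUnion]
    · refine Finset.card_le_card fun e he => ?_
      rw [Finset.mem_biUnion] at he
      obtain ⟨i, -, he⟩ := he
      rw [SimpleGraph.mem_edgeFinset] at he ⊢
      exact SimpleGraph.edgeSet_subset_edgeSet.2 (h2 i) he
    · intro i _ j _ hij
      rw [Function.onFun, Finset.disjoint_left]
      intro e he he'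
      rw [SimpleGraph.mem_edgeFinset] at he he'
      induction e using Sym2.ind with
      | _ a b => exact h3 i j hij a b he he'
  have h5 : ∀ i, (((T i).edgeFinset.card : ℕ) : ℝ) = (N : ℝ) - 1 := by
    intro i
    have := (h1 i).card_edgeFinset
    rw [Fintype.card_fin] at this
    have h7 : (((T i).edgeFinset.card : ℕ) : ℝ) + 1 = (N : ℝ) := by exact_mod_cast this
    linarith
  have h6 : ((∑ i, (T i).edgeFinset.card : ℕ) : ℝ) ≤ (G.edgeFinset.card : ℝ) := by
    exact_mod_cast h4
  push_cast at h6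
  rw [Finset.sum_congr rfl (fun i _ => h5 i), Finset.sum_const, Finset.card_univ, Fintype.card_fin,
    nsmul_eq_mul] at h6
  rw [Set.ncard_eq_toFinset_card']
  exact h6

lemma packing_isol {N k : ℕ} (hN : 2 ≤ N) (hk : 1 ≤ k) (G : SimpleGraph (Fin N))
    (hG : TreePacking k G) (v : Fin N) : ∃ w, G.Adj v w := by
  obtain ⟨T, h1, h2, h3⟩ := hG
  have : Nontrivial (Fin N) := Fin.nontrivial_iff_two_le.2 hN
  classical
  have h4 := (h1 ⟨0, hk⟩).1.preconnected.degree_pos_of_nontrivial v
  rw [SimpleGraph.degree_pos_iff_exists_adj] at h4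
  obtain ⟨w, hw⟩ := h4
  exact ⟨w, h2 _ hw⟩

lemma strength_inv {N : ℕ} (c : ℝ) : MonotoneInvariant (StrengthAtLeast (N := N) c) := by
  constructor
  · intro G H hGH h f
    refine (h f).trans ?_
    have : {e ∈ G.edgeSet | ∃ u v, e = s(u, v) ∧ f u ≠ f v} ⊆
        {e ∈ H.edgeSet | ∃ u v, e = s(u, v) ∧ f u ≠ f v} :=
      fun e he => ⟨SimpleGraph.edgeSet_subset_edgeSet.2 hGH he.1, he.2⟩
    exact_mod_cast Set.ncard_le_ncard this (Set.toFinite _)
  · intro σ G h f
    have h1 := h (f ∘ σ)
    rw [σ.surjective.range_comp] at h1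
    refine h1.trans ?_
    have : Sym2.map σ '' {e ∈ G.edgeSet | ∃ u v, e = s(u, v) ∧ (f ∘ σ) u ≠ (f ∘ σ) v} ⊆
        {e ∈ (G.map σ.toEmbedding).edgeSet | ∃ u v, e = s(u, v) ∧ f u ≠ f v} := by
      rintro _ ⟨e, ⟨he1, u, v, rfl, huv⟩, rfl⟩
      rw [Sym2.map_mk]
      refine ⟨(adj_map σ G u v).2 he1, σ u, σ v, rfl, huv⟩
    have h2 := Set.ncard_le_ncard this (Set.toFinite _)
    rw [Set.ncard_image_of_injective _ (Sym2.map.injective σ.injective)] at h2
    exact_mod_cast h2

lemma strength_edges {N : ℕ} {c : ℝ} (G : SimpleGraph (Fin N)) (hG : StrengthAtLeast c G) :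
    c * ((N : ℝ) - 1) ≤ (G.edgeSet.ncard : ℝ) := by
  have h1 := hG id
  rw [Set.range_id, Set.ncard_univ, Nat.card_eq_fintype_card, Fintype.card_fin] at h1
  refine h1.trans ?_
  have : {e ∈ G.edgeSet | ∃ u v, e = s(u, v) ∧ id u ≠ id v} ⊆ G.edgeSet := fun e he => he.1
  exact_mod_cast Set.ncard_le_ncard this (Set.toFinite _)

lemma strength_isol {N : ℕ} {c : ℝ} (hN : 2 ≤ N) (hc : 0 < c) (G : SimpleGraph (Fin N))
    (hG : StrengthAtLeast c G) (v : Fin N) : ∃ w, G.Adj v w := by
  classical
  have : Nontrivial (Fin N) := Fin.nontrivial_iff_two_le.2 hN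
  obtain ⟨v', hv'⟩ := exists_ne v
  have h1 := hG fun u => if u = v then v else v'
  have h2 : Set.range (fun u => if u = v then v else v') = {v, v'} := by
    ext x
    rw [Set.mem_range, Set.mem_insert_iff, Set.mem_singleton_iff]
    constructor
    · rintro ⟨u, rfl⟩
      by_cases h : u = v
      · exact Or.inl (if_pos h)
      · exact Or.inr (if_neg h)
    · rintro (rfl | rfl)
      · exact ⟨x, if_pos rfl⟩
      · exact ⟨x, if_neg hv'⟩
  rw [h2, Set.ncard_pair hv'.symm] at h1
  by_contra hcon
  push Not at hcon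
  have h3 : {e ∈ G.edgeSet | ∃ u w, e = s(u, w) ∧
      (if u = v then v else v') ≠ (if w = v then v else v')} = ∅ := by
    rw [Set.eq_empty_iff_forall_notMem]
    rintro e ⟨he, u, w, rfl, huw⟩
    rw [SimpleGraph.mem_edgeSet] at he
    by_cases hu : u = v
    · rw [hu] at he
      exact hcon w he
    · by_cases hw : w = v
      · rw [hw] at he
        exact hcon u he.symm
      · exact huw (by rw [if_neg hu, if_neg hw])
  rw [h3, Set.ncard_empty] at h1
  push_cast at h1
  linarith

lemma acyclic_edges {N : ℕ} (hN : 1 ≤ N) (T : SimpleGraph (Fin N)) (hT : T.IsAcyclic) :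
    T.edgeSet.ncard ≤ N - 1 := by
  classical
  have : Nonempty (Fin N) := ⟨⟨0, hN⟩⟩
  obtain ⟨F, h1, -, h3⟩ := SimpleGraph.Connected.exists_isTree_le_of_le_of_isAcyclic
    (SimpleGraph.connected_top (V := Fin N)) (le_top (a := T)) hT
  have h4 := h3.card_edgeFinset
  rw [Fintype.card_fin] at h4
  have h5 : T.edgeSet.ncard ≤ F.edgeSet.ncard :=
    Set.ncard_le_ncard (SimpleGraph.edgeSet_subset_edgeSet.2 h1) (Set.toFinite _)
  rw [Set.ncard_eq_toFinset_card' F.edgeSet] at h5
  have h6 : F.edgeFinset = F.edgeSet.toFinset := rfl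
  rw [h6] at h4
  omega

lemma union_edges {N k : ℕ} (hN : 1 ≤ N) (G : SimpleGraph (Fin N)) (hG : ForestUnion k G) :
    G.edgeSet.ncard ≤ k * (N - 1) := by
  classical
  obtain ⟨T, h1, h2⟩ := hG
  have h3 : G.edgeFinset ⊆ Finset.univ.biUnion fun i => (T i).edgeFinset := by
    intro e he
    rw [Finset.mem_biUnion]
    rw [SimpleGraph.mem_edgeFinset] at he
    induction e using Sym2.ind with
    | _ a b =>
      obtain ⟨i, hi⟩ := (h2 a b).1 he
      exact ⟨i, Finset.mem_univ _, by rw [SimpleGraph.mem_edgeFinset]; exact hi⟩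
  have h4 := (Finset.card_le_card h3).trans (Finset.card_biUnion_le_card_mul _ _ (N - 1) (by
    intro i _
    have := acyclic_edges hN (T i) (h1 i)
    rw [Set.ncard_eq_toFinset_card'] at this
    exact this))
  rw [Finset.card_univ, Fintype.card_fin] at h4
  rw [Set.ncard_eq_toFinset_card']
  exact h4

/-- a graph all of whose degrees are at least `2 k` is not a union of `k` forests -/
lemma not_union {N k : ℕ} (hN : 1 ≤ N) (hk : 1 ≤ k) (G : SimpleGraph (Fin N))
    (hG : ∀ v, 2 * k ≤ (G.neighborSet v).ncard) : ¬ ForestUnion k G := by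
  classical
  intro h
  have h1 := union_edges hN G h
  have h2 := G.sum_degrees_eq_twice_card_edges
  have h3 : ∑ _v : Fin N, 2 * k ≤ ∑ v, G.degree v := Finset.sum_le_sum fun v _ => by
    rw [← SimpleGraph.card_neighborSet_eq_degree, ← Nat.card_eq_fintype_card, Nat.card_coe_set_eq]
    exact hG v
  rw [h2, Finset.sum_const, Finset.card_univ, Fintype.card_fin, smul_eq_mul] at h3
  rw [Set.ncard_eq_toFinset_card'] at h1
  have h4 : G.edgeFinset = G.edgeSet.toFinset := rfl
  rw [h4] at h3
  obtain ⟨m, rfl⟩ : ∃ m, N = m + 1 := ⟨N - 1, by omega⟩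
  rw [Nat.add_sub_cancel] at h1
  nlinarith

/-- **Covering.** -/
theorem covering (N k : ℕ) (hk : 1 ≤ k) (hkN : 2 * k < N) (P : SimpleGraph (Fin N) → Prop)
    (hP : MonotoneInvariant P)
    (hlow : ∀ G : SimpleGraph (Fin N), (∀ v, 2 * k ≤ (G.neighborSet v).ncard) → P G)
    (hup : ∀ G, ForestUnion k G → ¬ P G) : Evasive P := by
  have hthr : ∀ (d : ℕ) (K : SimpleGraph (Fin N)), RegularOfDegree K d →
      (P K ↔ 2 * k ≤ d) := by
    classical
    intro d K hK
    constructor
    · intro h
      by_contra hcon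
      refine hup K ?_ h
      exact Pool.Agent.R483.TP.cover_aux K (degree_eq hK) (by omega)
    · intro h
      exact hlow K fun v => by rw [hK v]; exact h
  refine RegularDegrees.result N P hP.1 hP.2 ⟨⊤, ?_⟩ ⟨⊥, ?_⟩ ?_
  · rw [hthr _ _ (ConeDegrees.regular_top N)]
    omega
  · rw [hthr _ _ (ConeDegrees.regular_bot N)]
    omega
  · intro d K L _ _ hK hL
    rw [hthr d K hK, hthr d L hL]

lemma union_inv {N : ℕ} (k : ℕ) :
    MonotoneInvariant (fun G : SimpleGraph (Fin N) => ¬ ForestUnion k G) := by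
  constructor
  · rintro G H hGH h ⟨T, h1, h2⟩
    refine h ⟨fun i => T i ⊓ G, fun i => (h1 i).anti inf_le_left, fun u v => ⟨fun huv => ?_, ?_⟩⟩
    · obtain ⟨i, hi⟩ := (h2 u v).1 (hGH huv)
      exact ⟨i, hi, huv⟩
    · rintro ⟨i, hi⟩
      exact hi.2
  · rintro σ G h ⟨T, h1, h2⟩
    refine h ⟨fun i => (T i).comap σ, fun i => ?_, fun u v => ?_⟩
    · exact SimpleGraph.IsAcyclic.comap ⟨σ, fun {a b} h => h⟩ σ.injective (h1 i)
    · rw [← adj_map σ G u v, h2]
      rfl

/-- **Packing spanning trees, strength, and covering by forests are evasive for every `N`.** -/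
theorem result :
    -- properties between packing and counting
    (∀ (N : ℕ) (c : ℝ), 1 < c → 2 * c ≤ N → ∀ P : SimpleGraph (Fin N) → Prop,
      MonotoneInvariant P →
      (∀ G, TreePacking ⌊c⌋₊ G → StrengthAtLeast c G → P G) →
      (∀ G, P G → (∀ v, ∃ w, G.Adj v w) ∧ c * ((N : ℝ) - 1) ≤ (G.edgeSet.ncard : ℝ)) →
      Evasive P) ∧
    -- `k` edge-disjoint spanning trees
    (∀ N k : ℕ, 2 ≤ k → 2 * k ≤ N →
      Evasive (fun G : SimpleGraph (Fin N) => TreePacking k G)) ∧
    -- strength at least `c`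
    (∀ (N : ℕ) (c : ℝ), 1 < c → 2 * c ≤ N →
      Evasive (fun G : SimpleGraph (Fin N) => StrengthAtLeast c G)) ∧
    -- `k` edge-disjoint spanning trees and at least `m` edges
    (∀ N k m : ℕ, 1 ≤ k → 2 * k ≤ N → N ≤ m → m ≤ N.choose 2 →
      Evasive (fun G : SimpleGraph (Fin N) => TreePacking k G ∧ m ≤ G.edgeSet.ncard)) ∧
    -- properties between minimum degree and covering
    (∀ N k : ℕ, 1 ≤ k → 2 * k < N → ∀ P : SimpleGraph (Fin N) → Prop,
      MonotoneInvariant P →
      (∀ G : SimpleGraph (Fin N), (∀ v, 2 * k ≤ (G.neighborSet v).ncard) → P G) →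
      (∀ G, ForestUnion k G → ¬ P G) → Evasive P) ∧
    -- not a union of `k` forests
    (∀ N k : ℕ, 1 ≤ k → 2 * k < N →
      Evasive (fun G : SimpleGraph (Fin N) => ¬ ForestUnion k G)) := by
  refine ⟨packing, ?_, ?_, ?_, covering, ?_⟩
  · intro N k hk hkN
    refine packing N k (by exact_mod_cast hk) (by exact_mod_cast hkN) _ (packing_inv k) ?_ ?_
    · intro G h _
      rwa [Nat.floor_natCast] at h
    · intro G h
      exact ⟨packing_isol (by omega) (by omega) G h, packing_edges G h⟩
  · intro N c hc hcN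
    have hN : 2 ≤ N := by
      have : (2 : ℝ) ≤ N := by linarith
      exact_mod_cast this
    refine packing N c hc hcN _ (strength_inv c) (fun G _ h => h) ?_
    intro G h
    exact ⟨strength_isol hN (by linarith) G h, strength_edges G h⟩
  · intro N k m hk hkN hNm hm
    have hN1 : (0 : ℝ) < (N : ℝ) - 1 := by
      have : (2 : ℝ) ≤ N := by
        have : 2 ≤ N := by omega
        exact_mod_cast this
      linarith
    have h1 : (2 : ℝ) * m ≤ N * (N - 1) := by
      have h2 : 2 * m ≤ N * (N - 1) := by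
        have h3 := Nat.choose_two_right N
        have h4 : 2 * N.choose 2 ≤ N * (N - 1) := by
          rw [h3]
          exact Nat.mul_div_le _ _
        omega
      have h5 : ((2 * m : ℕ) : ℝ) ≤ ((N * (N - 1) : ℕ) : ℝ) := by exact_mod_cast h2
      rw [Nat.cast_mul, Nat.cast_mul, Nat.cast_sub (by omega : 1 ≤ N)] at h5
      push_cast at h5
      exact h5
    set c : ℝ := max k (m / (N - 1)) with hc
    have hc1 : 1 < c := by
      refine lt_of_lt_of_le ?_ (le_max_right _ _)
      rw [lt_div_iff₀ hN1]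
      have : (N : ℝ) ≤ m := by exact_mod_cast hNm
      linarith
    have hc2 : 2 * c ≤ N := by
      have h2 : (k : ℝ) ≤ N / 2 := by
        have : (2 : ℝ) * k ≤ N := by exact_mod_cast hkN
        linarith
      have h3 : (m : ℝ) / (N - 1) ≤ N / 2 := by
        rw [div_le_iff₀ hN1]
        linarith
      have := max_le h2 h3
      linarith
    refine packing N c hc1 hc2 _ ?_ ?_ ?_
    · refine ⟨fun G H hGH h => ⟨(packing_inv k).1 G H hGH h.1, h.2.trans ?_⟩,
        fun σ G h => ⟨(packing_inv k).2 σ G h.1, h.2.trans ?_⟩⟩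
      · exact Set.ncard_le_ncard (SimpleGraph.edgeSet_subset_edgeSet.2 hGH) (Set.toFinite _)
      · have : Sym2.map σ '' G.edgeSet ⊆ (G.map σ.toEmbedding).edgeSet := by
          rintro _ ⟨e, he, rfl⟩
          induction e using Sym2.ind with
          | _ a b =>
            rw [Sym2.map_mk]
            exact (adj_map σ G a b).2 he
        have h2 := Set.ncard_le_ncard this (Set.toFinite _)
        rwa [Set.ncard_image_of_injective _ (Sym2.map.injective σ.injective)] at h2
    · intro G h2 h3
      refine ⟨packing_anti ?_ G h2, ?_⟩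
      · exact Nat.le_floor (le_max_left _ _)
      · have h4 := strength_edges G h3
        have h5 : (m : ℝ) ≤ c * ((N : ℝ) - 1) := by
          rw [← div_le_iff₀ hN1]
          exact le_max_right _ _
        exact_mod_cast h5.trans h4
    · rintro G ⟨h2, h3⟩
      refine ⟨packing_isol (by omega) hk G h2, ?_⟩
      have h4 := packing_edges G h2
      have h5 : (m : ℝ) ≤ (G.edgeSet.ncard : ℝ) := by exact_mod_cast h3
      rw [← le_div_iff₀ hN1]
      refine max_le ?_ ?_
      · rw [le_div_iff₀ hN1]
        exact h4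
      · exact div_le_div_of_nonneg_right h5 hN1.le
  · intro N k hk hkN
    refine covering N k hk hkN _ (union_inv k) ?_ (fun G h h' => h' h)
    intro G hG
    exact not_union (by omega) hk G hG

end Pool.Agent.Results.MP_257582_lc.PackingCovering
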