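import Mathlib
import Pool.Agent.R54.EV.Prop

set_option autoImplicit false

/-!
# Containing a k-factor is evasive for all n and k (MP_257582_lc)

For all `1 ≤ k < n` with `k n` even the property of containing a `k`-factor (a spanning `k`-regular
subgraph) is evasive for graphs on `n` vertices, with no arithmetic condition on `n`.  Moreover, for
`n` even, every monotone isomorphism-invariant property of graphs on `n` vertices that contains the
Cayley graphs of abelian groups with a perfect matching and a `k`-factor, and whose members among
these Cayley graphs have components of even order and degree at least `k`, is evasive.  Examples: to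
have a perfect matching and minimum degree (or average degree) at least `k`, to have a perfect
matching and a `k`-factor, to have minimum degree at least `k` and only components of even order.

Proof.  A Cayley graph of an abelian group with connection set `S` has a `k`-factor for `k` even iff
`S` has at least `k` elements, and for `k` odd iff moreover `S` has an element of even order (split
off a symmetric subset of `k - 1` elements and take alternate edges of the cycles of an element of
even order).  If a property is not evasive, then for the translations of `Z_n`, and of `Z_2 × Z_m` for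
even `n = 2 m`, the signed sum of its values over the symmetric subsets `S` vanishes (Kahn, Saks and
Sturtevant).  With `2 i + 1` or `2 i + 2` equal to `k` and `2 M + 3` the number of elements of odd
order, the sum is up to sign: `C(n/2 - 1, i) - C(M, i)` for `Z_n`, `k` odd; `C(M, i)` for `Z_n`, `k`
even, `n = 2 m`, `m > k` odd; `2 C(n/2 - 2, i) + C(M, i)` for `Z_2 × Z_(n/2)`, `k` even, `4 ∣ n`.  For
`k ≥ n / 2` only the degree matters and `RegularDegrees` applies; `k = 1` is in `DisjointCopies`.
-/

namespace Pool.Agent.Results.MP_257582_lc.RegularFactors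

/-- Every decision strategy `σ` (the next pair to be queried depends only on the answers to the
queries made so far) needs all `n.choose 2` queries: there are two graphs that agree on the first
`n.choose 2 - 1` queried pairs, one with and one without `P`. -/
def Evasive {n : ℕ} (P : SimpleGraph (Fin n) → Prop) : Prop :=
  ∀ σ : Finset (Sym2 (Fin n)) → SimpleGraph (Fin n) → Sym2 (Fin n),
    (∀ (Q : Finset (Sym2 (Fin n))) (G H : SimpleGraph (Fin n)),
        (∀ e ∈ Q, (e ∈ G.edgeSet ↔ e ∈ H.edgeSet)) → σ Q G = σ Q H) →
    ∃ G H : SimpleGraph (Fin n),
      (∀ e ∈ (fun Q : Finset (Sym2 (Fin n)) => insert (σ Q G) Q)^[n.choose 2 - 1]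
            (∅ : Finset (Sym2 (Fin n))),
          (e ∈ G.edgeSet ↔ e ∈ H.edgeSet)) ∧ P G ∧ ¬ P H

/-- `G` has a spanning subgraph in which every vertex has exactly `k` neighbours. -/
def HasFactor {V : Type} (k : ℕ) (G : SimpleGraph V) : Prop :=
  ∃ H ≤ G, ∀ v : V, (H.neighborSet v).ncard = k

/-- Every connected component has an even number of vertices. -/
def EvenComponents {V : Type} (G : SimpleGraph V) : Prop :=
  ∀ C : G.ConnectedComponent, Even C.supp.ncard

/-- The degree sum is at least `k n`. -/
def AverageDegree {n : ℕ} (k : ℕ) (G : SimpleGraph (Fin n)) : Prop :=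
  k * n ≤ ∑ v : Fin n, (G.neighborSet v).ncard

/-- `G` is isomorphic to the Cayley graph of an abelian group with connection set `T ∪ -T`. -/
def AbelianCayley {V : Type} (G : SimpleGraph V) : Prop :=
  ∃ (A : Type) (_ : AddCommGroup A) (T : Set A) (e : A ≃ V),
    ∀ x y : A, G.Adj (e x) (e y) ↔ x ≠ y ∧ (y - x ∈ T ∨ x - y ∈ T)

/-- **Factors and evasiveness.** (1) For all `1 ≤ k < n` with `k n` even, containing a `k`-factor is
an evasive property of graphs on `n` vertices. (2) For `n` even and `1 ≤ k < n` every monotone
isomorphism-invariant property of graphs on `n` vertices is evasive if it contains all Cayley graphs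
of abelian groups that have a perfect matching and a `k`-factor, and if all Cayley graphs of abelian
groups with the property have components of even order and average degree at least `k`. -/
theorem result :
    (∀ n k : ℕ, 1 ≤ k → k < n → Even (k * n) →
      Evasive (fun G : SimpleGraph (Fin n) => HasFactor k G)) ∧
    (∀ n k : ℕ, Even n → 1 ≤ k → k < n → ∀ P : SimpleGraph (Fin n) → Prop,
      (∀ G H : SimpleGraph (Fin n), G ≤ H → P G → P H) →
      (∀ (σ : Fin n ≃ Fin n) (G : SimpleGraph (Fin n)), P G → P (G.map σ.toEmbedding)) →
      (∀ G : SimpleGraph (Fin n), AbelianCayley G → HasFactor 1 G → HasFactor k G → P G) →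
      (∀ G : SimpleGraph (Fin n), AbelianCayley G → P G →
        EvenComponents G ∧ AverageDegree k G) →
      Evasive P) := by
  have h2 : ∀ n k : ℕ, Even n → 1 ≤ k → k < n → ∀ P : SimpleGraph (Fin n) → Prop,
      (∀ G H : SimpleGraph (Fin n), G ≤ H → P G → P H) →
      (∀ (σ : Fin n ≃ Fin n) (G : SimpleGraph (Fin n)), P G → P (G.map σ.toEmbedding)) →
      (∀ G : SimpleGraph (Fin n), AbelianCayley G → HasFactor 1 G → HasFactor k G → P G) →
      (∀ G : SimpleGraph (Fin n), AbelianCayley G → P G →
        EvenComponents G ∧ AverageDegree k G) →
      Evasive P := by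
    intro n k he hk1 hkn P hmono hiso ha hb
    have hn : 2 ≤ n := by omega
    rcases hk1.eq_or_lt with hk | hk
    · subst hk
      exact Pool.Agent.R54.EV.evasive_one hn he hmono hiso ha hb
    · refine Pool.Agent.R54.EV.evasive_of hmono hiso fun hGP => ?_
      exact Pool.Agent.R54.EV.no_GP_mem hn he hGP hk hkn
        (Pool.Agent.R54.EV.mem_of_sandwich (by omega) ha hb)
  refine ⟨?_, h2⟩
  intro n k hk1 hkn hev
  have hn : 2 ≤ n := by omega
  have hmono : ∀ G H : SimpleGraph (Fin n), G ≤ H → HasFactor k G → HasFactor k H := by
    rintro G H hGH ⟨K, h3, h4⟩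
    exact ⟨K, h3.trans hGH, h4⟩
  have hiso : ∀ (σ : Fin n ≃ Fin n) (G : SimpleGraph (Fin n)), HasFactor k G →
      HasFactor k (G.map σ.toEmbedding) := by
    intro σ G hG
    exact Pool.Agent.R54.EV.HasFactor.map hG σ
  rcases Nat.even_or_odd k with hk | hk
  · refine Pool.Agent.R54.EV.evasive_of hmono hiso fun hGP => ?_
    refine Pool.Agent.W332.Kd.no_GP hn hGP (k - 1) (by omega) ?_
    intro A _ _ hA S hS
    rw [Nat.sub_add_cancel hk1]
    exact Pool.Agent.R54.EV.mem_even (by omega) hk A hA S hS
  · have he : Even n := by
      rw [Nat.even_mul] at hev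
      exact hev.resolve_left (Nat.not_even_iff_odd.2 hk)
    refine h2 n k he hk1 hkn _ hmono hiso (fun G _ _ h => h) ?_
    intro G _ hG
    exact ⟨Pool.Agent.R54.EV.evenComps_of_factor hk hG,
      Pool.Agent.R54.EV.avgDeg_of_factor hG⟩

end Pool.Agent.Results.MP_257582_lc.RegularFactors
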