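import Mathlib
import Pool.Agent.R546.EV.HamCone

set_option autoImplicit false

/-!
# Between spanning wheels and 2-connectivity every property is evasive (MP_257582_lc)

Let `n ≥ 3` be the product of a prime power and a squarefree number. Every monotone
isomorphism-invariant property of graphs on `n + 1` vertices that contains all graphs with a spanning
wheel, and all members of which are 2-connected, is evasive. The wheel on `n + 1 ≥ 4` vertices is
3-connected, Hamiltonian, Hamilton-connected, pancyclic, not bipartite, and globally rigid in the
plane, so all the following properties of graphs on `n + 1` vertices are evasive for these `n`: to be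
Hamiltonian, Hamilton-connected, pancyclic, globally rigid in the plane, 2-connected and not bipartite,
2-connected with minimum degree at least 3, to have a spanning 3-connected planar subgraph, a spanning
wheel.

For graphs on `n` vertices, `n` as above, `LongCycleSandwich` has the properties between Hamiltonian
and connected. So to be Hamiltonian is evasive for `n` vertices unless `n` and `n - 1` are both
divisible by the squares of two primes; this happens for the first time for `n = 676`, and for about
`0.05` percent of all `n`.

Proof. Let `A` be the product of an elementary abelian `p`-group and a cyclic group, of order `n` and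
of squarefree exponent; it acts on `n` of the vertices and fixes one vertex. If the property is not
evasive, then the signed sum of its values over the invariant graphs vanishes. The invariant graphs in
which the fixed vertex is isolated are not members, the others are the cones over the Cayley graphs
of `A`. If the Cayley graph is connected, then it has a Hamiltonian cycle and the cone contains a
spanning wheel; if it is not connected, then the cone is not 2-connected. So the sum is the signed
number of the generating symmetric subsets of `A`, which does not vanish.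
-/

namespace Pool.Agent.Results.MP_257582_lc.SpanningWheels

open Pool.Agent.R546.EV
open Pool.Agent.W332.Kc (coneO)

/-- Every decision strategy `s` (the next pair to be queried depends only on the answers to the
queries made so far) needs all `n.choose 2` queries: there are two graphs that agree on the first
`n.choose 2 - 1` queried pairs, one with and one without `P`. -/
def Evasive {n : ℕ} (P : SimpleGraph (Fin n) → Prop) : Prop :=
  ∀ s : Finset (Sym2 (Fin n)) → SimpleGraph (Fin n) → Sym2 (Fin n),
    (∀ (Q : Finset (Sym2 (Fin n))) (G H : SimpleGraph (Fin n)),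
        (∀ e ∈ Q, (e ∈ G.edgeSet ↔ e ∈ H.edgeSet)) → s Q G = s Q H) →
    ∃ G H : SimpleGraph (Fin n),
      (∀ e ∈ (fun Q : Finset (Sym2 (Fin n)) => insert (s Q G) Q)^[n.choose 2 - 1]
            (∅ : Finset (Sym2 (Fin n))),
          (e ∈ G.edgeSet ↔ e ∈ H.edgeSet)) ∧ P G ∧ ¬ P H

/-- `G` is 2-connected: there are at least three vertices, and deleting at most one vertex leaves a
connected graph. -/
def TwoConnected {n : ℕ} (G : SimpleGraph (Fin n)) : Prop :=
  3 ≤ n ∧ ∀ X : Finset (Fin n), X.card ≤ 1 → (G.induce {v | v ∉ X}).Connected

/-- `G` has a spanning wheel: there are a vertex `v` adjacent to all other vertices (the hub) and a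
cycle `f` through all other vertices. -/
def SpanningWheel {n : ℕ} (G : SimpleGraph (Fin (n + 1))) : Prop :=
  ∃ (v : Fin (n + 1)) (f : Fin n → Fin (n + 1)), Function.Injective f ∧ (∀ i, f i ≠ v) ∧
    (∀ i, G.Adj v (f i)) ∧ ∀ i j, (SimpleGraph.cycleGraph n).Adj i j → G.Adj (f i) (f j)

theorem wheel_of {n : ℕ} {G : SimpleGraph (Fin (n + 1))} (h : HasW n G) : SpanningWheel G := by
  obtain ⟨f, hf, hadj⟩ := h
  refine ⟨f none, fun i => f (some i), fun i j hij => Option.some_injective _ (hf hij),
    fun i hi => ?_, fun i => hadj _ _ ⟨fun h => (by cases h), fun x y hx => (by cases hx)⟩,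
    fun i j hij => hadj _ _ ⟨fun h => ?_, fun x y hx hy => ?_⟩⟩
  · cases hf hi
  · exact hij.ne (Option.some_injective _ h)
  · cases hx
    cases hy
    exact hij

/-- **Between spanning wheels and 2-connectivity every property is evasive.** -/
theorem result (n : ℕ) (hn : 3 ≤ n)
    (hn' : ∃ p a m : ℕ, p.Prime ∧ Squarefree m ∧ n = p ^ a * m)
    (P : SimpleGraph (Fin (n + 1)) → Prop)
    (hmono : ∀ G H : SimpleGraph (Fin (n + 1)), G ≤ H → P G → P H)
    (hiso : ∀ (σ : Fin (n + 1) ≃ Fin (n + 1)) (G : SimpleGraph (Fin (n + 1))),
      P G → P (G.map σ.toEmbedding))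
    (hlow : ∀ G : SimpleGraph (Fin (n + 1)), SpanningWheel G → P G)
    (hup : ∀ G : SimpleGraph (Fin (n + 1)), P G → TwoConnected G) : Evasive P := by
  intro s hs
  by_contra hcon
  have hGP : Pool.Agent.H119R2.Kp.GP (n + 1) ((n + 1).choose 2 - 1) P := by
    refine ⟨hmono, hiso, Pool.Agent.H119R2.Kp.dec_of_strategy _ P s hs fun G H hGH hPG => ?_⟩
    by_contra hPH
    exact hcon ⟨G, H, hGH, hPG, hPH⟩
  have hup' : ∀ G : SimpleGraph (Fin (n + 1)), P G → KC 2 G := by
    intro G hG
    obtain ⟨h1, h2⟩ := hup G hG
    refine ⟨by rw [Fintype.card_fin]; omega, fun X hX => h2 X (by omega)⟩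
  obtain ⟨p, a, m, hp, hm, hnp⟩ := hn'
  by_cases hpm : p ∣ m
  · obtain ⟨m', rfl⟩ := hpm
    have hm' : Squarefree m' := hm.squarefree_of_dvd (dvd_mul_left _ _)
    refine no_GP_ham' hn p (a + 1) m' hp (by rw [hnp]; ring) hm' ?_ hGP
      (fun G hG => hlow G (wheel_of hG)) hup'
    intro hpm'
    have h1 := hm p (mul_dvd_mul_left p hpm')
    exact hp.one_lt.ne' (Nat.isUnit_iff.1 h1)
  · exact no_GP_ham' hn p a m hp hnp hm hpm hGP (fun G hG => hlow G (wheel_of hG)) hup'

end Pool.Agent.Results.MP_257582_lc.SpanningWheels
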