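import Mathlib
import Pool.Agent.R546.EV.Main

set_option autoImplicit false

/-!
# Evasiveness of k-vertex-connectivity (MP_257582_lc)

For all `4 ≤ k < n` the property of being `k`-connected is evasive for graphs on `n` vertices, with
no arithmetic condition on `n`. More generally, let `P` be a monotone isomorphism-invariant property
of graphs on `n` vertices.
* If `n` is odd, `3 ≤ k < n`, all vertex-transitive Hamiltonian `k`-connected graphs have `P` and all
  members of `P` are connected with average degree at least `k`, then `P` is evasive.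
* If `n` is even, `4 ≤ k < n`, all Hamiltonian `k`-connected graphs have `P` and all members of `P`
  are 2-connected with average degree at least `k`, then `P` is evasive.
So for example (`n` odd, `k` even) being connected and containing `k / 2` edge-disjoint 2-factors,
or for any `k` being 2-connected with minimum, or average, degree at least `k`, are evasive.

Proof. Let `n` be odd (for even `n` one uses the cones over the graphs on `n - 1` vertices, and
`k - 1`). If `P` is not evasive, then the signed sum of the values of `P` over the circulant graphs of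
order `n` vanishes. Put `m = (n - 1) / 2`, `u = ⌊(k - 1) / 2⌋`. Members that are circulant graphs are
given by generating sets of more than `u` of the `m` pairs `{a, -a}`, and all such sets whose
graph is `k`-connected do give members (connected Cayley graphs of abelian groups are Hamiltonian). By
Moebius inversion over the divisors `d` of `n` the signed number of all generating sets of more than
`u` pairs is, up to sign, the sum of `μ(d) * choose ((n / d - 3) / 2) u`, which is at least `11 / 12` of
`choose (m - 1) u` for `u ≥ 3` (and at least `3 / 4` of it for `u = 2`, and positive for `u = 1`).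
If the graph of a generating set `S` is not `k`-connected, then by submodularity of the boundary the
smallest atom is a subgroup `H` (`atom`), of order `h = 2 x + 3`, and `S ∪ {0}` lies in a union of
`2 w + 1` cosets of `H` with `w = ⌊u / h⌋`, `1 ≤ w`, where `u + 1 ≤ |S| ≤ w h + x + 1`. The number of
these sets is at most `(x + 2) / (8 * 2 ^ x)` of `choose (m - 1) u` (`bad_one`), which adds up to at
most `3 / 4` over all `x`; there are none for `u ≤ 2`. So the signed sum does not vanish.
-/

namespace Pool.Agent.Results.MP_257582_lc.VertexConnectivity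

open Pool.Agent.R546.EV
open Pool.Agent.TH669.KS (HasC)

/-- Every decision strategy `s` (the next pair to be queried depends only on the answers to the
queries made so far) needs all `n.choose 2` queries: there are two graphs that agree on the first
`n.choose 2 - 1` queried pairs, one with and one without `P`. -/
def Evasive {n : ℕ} (P : SimpleGraph (Fin n) → Prop) : Prop :=
  ∀ s : Finset (Sym2 (Fin n)) → SimpleGraph (Fin n) → Sym2 (Fin n),
    (∀ (Q : Finset (Sym2 (Fin n))) (G H : SimpleGraph (Fin n)),
        (∀ e ∈ Q, (e ∈ G.edgeSet ↔ e ∈ H.edgeSet)) → s Q G = s Q H) →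
    ∃ G H : SimpleGraph (Fin n),
      (∀ e ∈ (fun Q : Finset (Sym2 (Fin n)) => insert (s Q G) Q)^[n.choose 2 - 1]
            (∅ : Finset (Sym2 (Fin n))),
          (e ∈ G.edgeSet ↔ e ∈ H.edgeSet)) ∧ P G ∧ ¬ P H

/-- `G` is `k`-connected: there are more than `k` vertices, and deleting any set of less than `k`
vertices leaves a connected graph. -/
def VertexConnected {n : ℕ} (k : ℕ) (G : SimpleGraph (Fin n)) : Prop :=
  k < n ∧ ∀ X : Finset (Fin n), X.card < k → (G.induce {v | v ∉ X}).Connected

/-- `G` has a Hamiltonian cycle. -/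
def Hamiltonian {n : ℕ} (G : SimpleGraph (Fin n)) : Prop :=
  (SimpleGraph.cycleGraph n).IsContained G

/-- Any two vertices are exchanged by an automorphism. -/
def VertexTransitive {n : ℕ} (G : SimpleGraph (Fin n)) : Prop :=
  ∀ u v : Fin n, ∃ φ : G ≃g G, φ u = v

/-- The average degree is at least `k`. -/
def AverageDegree {n : ℕ} (k : ℕ) (G : SimpleGraph (Fin n)) : Prop :=
  k * n ≤ ∑ v, (G.neighborSet v).ncard

theorem KC_iff {n k : ℕ} (G : SimpleGraph (Fin n)) : KC k G ↔ VertexConnected k G := by
  unfold KC VertexConnected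
  rw [Fintype.card_fin]

theorem ham_of_hasC {n : ℕ} {G : SimpleGraph (Fin n)} (h : HasC G n) : Hamiltonian G := by
  obtain ⟨t, ht, ⟨c⟩⟩ := h
  have h1 : t ≤ n := by
    have := Fintype.card_le_of_injective c c.injective
    rwa [Fintype.card_fin, Fintype.card_fin] at this
  have h2 : t = n := le_antisymm h1 ht
  subst h2
  exact ⟨c⟩

theorem evasive_of {n : ℕ} (P : SimpleGraph (Fin n) → Prop)
    (hmono : ∀ G H : SimpleGraph (Fin n), G ≤ H → P G → P H)
    (hiso : ∀ (σ : Fin n ≃ Fin n) (G : SimpleGraph (Fin n)), P G → P (G.map σ.toEmbedding))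
    (h : ¬ Pool.Agent.H119R2.Kp.GP n (n.choose 2 - 1) P) : Evasive P := by
  intro σ hσ
  by_contra hcon
  refine h ⟨hmono, hiso, Pool.Agent.H119R2.Kp.dec_of_strategy _ P σ hσ fun G H hGH hPG => ?_⟩
  by_contra hPH
  exact hcon ⟨G, H, hGH, hPG, hPH⟩

theorem odd_case (n k : ℕ) (hn : Odd n) (hk : 3 ≤ k) (hkn : k < n)
    (P : SimpleGraph (Fin n) → Prop)
    (hmono : ∀ G H : SimpleGraph (Fin n), G ≤ H → P G → P H)
    (hiso : ∀ (σ : Fin n ≃ Fin n) (G : SimpleGraph (Fin n)), P G → P (G.map σ.toEmbedding))
    (hlow : ∀ G : SimpleGraph (Fin n), VertexTransitive G → VertexConnected k G →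
      Hamiltonian G → P G)
    (hup : ∀ G : SimpleGraph (Fin n), P G → G.Connected ∧ AverageDegree k G) : Evasive P := by
  refine evasive_of P hmono hiso fun hGP => ?_
  exact no_GP_odd hn hk hkn hGP
    (fun G h0 h1 h2 => hlow G h0 ((KC_iff G).1 h1) (ham_of_hasC h2)) hup

theorem even_case (n k : ℕ) (hn : Even n) (hk : 4 ≤ k) (hkn : k < n)
    (P : SimpleGraph (Fin n) → Prop)
    (hmono : ∀ G H : SimpleGraph (Fin n), G ≤ H → P G → P H)
    (hiso : ∀ (σ : Fin n ≃ Fin n) (G : SimpleGraph (Fin n)), P G → P (G.map σ.toEmbedding))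
    (hlow : ∀ G : SimpleGraph (Fin n), VertexConnected k G → Hamiltonian G → P G)
    (hup : ∀ G : SimpleGraph (Fin n), P G → VertexConnected 2 G ∧ AverageDegree k G) :
    Evasive P := by
  obtain ⟨n, rfl⟩ : ∃ n', n = n' + 1 := ⟨n - 1, by omega⟩
  obtain ⟨k, rfl⟩ : ∃ k', k = k' + 1 := ⟨k - 1, by omega⟩
  have hn' : Odd n := by
    rw [Nat.even_add_one, Nat.not_even_iff_odd] at hn
    exact hn
  refine evasive_of P hmono hiso fun hGP => ?_
  exact no_GP_even (t := k) hn' (by omega) (by omega) hGP
    (fun G h1 h2 => hlow G ((KC_iff G).1 h1) (ham_of_hasC h2))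
    (fun G hG => ⟨(KC_iff G).2 (hup G hG).1, (hup G hG).2⟩)

theorem vc_mono {n k : ℕ} (G H : SimpleGraph (Fin n)) (h : G ≤ H) (hG : VertexConnected k G) :
    VertexConnected k H :=
  ⟨hG.1, fun X hX => (hG.2 X hX).mono fun _ _ hab => h hab⟩

theorem vc_iso {n k : ℕ} (σ : Fin n ≃ Fin n) (G : SimpleGraph (Fin n))
    (hG : VertexConnected k G) : VertexConnected k (G.map σ.toEmbedding) :=
  (KC_iff _).1 (KC_iso (SimpleGraph.Iso.map σ G) ((KC_iff G).2 hG))

theorem ham_mono {n : ℕ} (G H : SimpleGraph (Fin n)) (h : G ≤ H) (hG : Hamiltonian G) :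
    Hamiltonian H := hG.mono_right h

theorem ham_iso {n : ℕ} (σ : Fin n ≃ Fin n) (G : SimpleGraph (Fin n))
    (hG : Hamiltonian G) : Hamiltonian (G.map σ.toEmbedding) :=
  ham_of_hasC (hasC_map ⟨n, le_rfl, hG⟩ σ)

theorem vc_degree {n k : ℕ} (G : SimpleGraph (Fin n)) (hG : VertexConnected k G) (v : Fin n) :
    k ≤ (G.neighborSet v).ncard := by
  classical
  by_contra hcon
  rw [not_le] at hcon
  set X : Finset (Fin n) := (G.neighborSet v).toFinset with hX
  have hXc : X.card = (G.neighborSet v).ncard := by
    rw [hX, Set.ncard_eq_toFinset_card']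
  have hvX : v ∉ X := by
    rw [hX, Set.mem_toFinset]
    exact fun h => (SimpleGraph.mem_neighborSet _ _ _ |>.1 h).ne rfl
  have hnb : ∀ z, G.Adj v z → z ∈ X := by
    intro z hz
    rw [hX, Set.mem_toFinset]
    exact hz
  have h1 := hG.2 X (by omega)
  obtain ⟨w, hw⟩ : ∃ w, w ∉ insert v X := by
    by_contra hall
    push Not at hall
    have h2 : insert v X = Finset.univ := by
      rw [Finset.eq_univ_iff_forall]
      exact hall
    have h3 := Finset.card_insert_le v X
    rw [h2, Finset.card_univ, Fintype.card_fin] at h3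
    have := hG.1
    omega
  rw [Finset.mem_insert, not_or] at hw
  obtain ⟨p⟩ := h1.preconnected ⟨v, hvX⟩ ⟨w, hw.2⟩
  cases p with
  | nil => exact hw.1 rfl
  | @cons _ y _ hadj _ =>
    exact y.2 (hnb _ hadj)

theorem vc_average {n k : ℕ} (G : SimpleGraph (Fin n)) (hG : VertexConnected k G) :
    AverageDegree k G := by
  unfold AverageDegree
  calc k * n = ∑ _v : Fin n, k := by
        rw [Finset.sum_const, Finset.card_univ, Fintype.card_fin, smul_eq_mul, mul_comm]
    _ ≤ ∑ v, (G.neighborSet v).ncard := Finset.sum_le_sum fun v _ => vc_degree G hG v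

theorem vc_two {n k : ℕ} (hk : 2 ≤ k) (G : SimpleGraph (Fin n)) (hG : VertexConnected k G) :
    VertexConnected 2 G :=
  ⟨lt_of_le_of_lt hk hG.1, fun X hX => hG.2 X (by omega)⟩

theorem vc_connected {n k : ℕ} (hk : 1 ≤ k) (G : SimpleGraph (Fin n))
    (hG : VertexConnected k G) : G.Connected := ((KC_iff G).2 hG).connected hk

theorem both (n k : ℕ) (hk : 4 ≤ k) (hkn : k < n) (P : SimpleGraph (Fin n) → Prop)
    (hmono : ∀ G H : SimpleGraph (Fin n), G ≤ H → P G → P H)
    (hiso : ∀ (σ : Fin n ≃ Fin n) (G : SimpleGraph (Fin n)), P G → P (G.map σ.toEmbedding))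
    (hlow : ∀ G : SimpleGraph (Fin n), VertexConnected k G → Hamiltonian G → P G)
    (hup : ∀ G : SimpleGraph (Fin n), P G → VertexConnected k G) : Evasive P := by
  rcases Nat.even_or_odd n with hn | hn
  · exact even_case n k hn hk hkn P hmono hiso hlow fun G hG =>
      ⟨vc_two (by omega) G (hup G hG), vc_average G (hup G hG)⟩
  · exact odd_case n k hn (by omega) hkn P hmono hiso (fun G _ => hlow G) fun G hG =>
      ⟨vc_connected (by omega) G (hup G hG), vc_average G (hup G hG)⟩

/-- **Evasiveness of `k`-connectivity**, and of every property between Hamiltonian `k`-connected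
graphs and 2-connected graphs (connected graphs if `n` is odd) of average degree at least `k`. -/
theorem result :
    (∀ (n k : ℕ), 4 ≤ k → k < n →
      Evasive (fun G : SimpleGraph (Fin n) => VertexConnected k G) ∧
      Evasive (fun G : SimpleGraph (Fin n) => VertexConnected k G ∧ Hamiltonian G)) ∧
    (∀ (n k : ℕ), Odd n → 3 ≤ k → k < n →
      ∀ P : SimpleGraph (Fin n) → Prop,
        (∀ G H : SimpleGraph (Fin n), G ≤ H → P G → P H) →
        (∀ (σ : Fin n ≃ Fin n) (G : SimpleGraph (Fin n)), P G → P (G.map σ.toEmbedding)) →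
        (∀ G : SimpleGraph (Fin n), VertexTransitive G → VertexConnected k G →
          Hamiltonian G → P G) →
        (∀ G : SimpleGraph (Fin n), P G → G.Connected ∧ AverageDegree k G) →
        Evasive P) ∧
    (∀ (n k : ℕ), Even n → 4 ≤ k → k < n →
      ∀ P : SimpleGraph (Fin n) → Prop,
        (∀ G H : SimpleGraph (Fin n), G ≤ H → P G → P H) →
        (∀ (σ : Fin n ≃ Fin n) (G : SimpleGraph (Fin n)), P G → P (G.map σ.toEmbedding)) →
        (∀ G : SimpleGraph (Fin n), VertexConnected k G → Hamiltonian G → P G) →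
        (∀ G : SimpleGraph (Fin n), P G → VertexConnected 2 G ∧ AverageDegree k G) →
        Evasive P) := by
  refine ⟨fun n k hk hkn => ⟨?_, ?_⟩, odd_case, even_case⟩
  · exact both n k hk hkn _ (fun G H => vc_mono G H) (fun σ G => vc_iso σ G)
      (fun G h _ => h) (fun G h => h)
  · exact both n k hk hkn _ (fun G H h hG => ⟨vc_mono G H h hG.1, ham_mono G H h hG.2⟩)
      (fun σ G hG => ⟨vc_iso σ G hG.1, ham_iso σ G hG.2⟩)
      (fun G h1 h2 => ⟨h1, h2⟩) (fun G h => h.1)

end Pool.Agent.Results.MP_257582_lc.VertexConnectivity
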